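import Pool.Agent.H645R3.ABC9

set_option autoImplicit false

open NumberField H645.ABC Filter Topology

namespace Pool.Agent.Results.MP_a793bb_nt.AlmostAll

/-- For every number field `K` of degree `d` and every `0 < ε ≤ 3`, almost all points
`P = (a : b : c)` with `a + b + c = 0`, `abc ≠ 0`, ordered by height, satisfy
`rad(P) ≥ (3 - ε) h(P)`: the number of exceptions with `h(P) ≤ T` is at most
`C exp (-(2 ε / 3 - δ) d T)` times the number of all points with `h(P) ≤ T`, and in particular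
the proportion of exceptions tends to `0`. -/
theorem result (K : Type) [Field K] [NumberField K] (ε : ℝ) (hε : 0 < ε) (hε3 : ε ≤ 3) :
    (∀ T : ℝ, {p : Projectivization K (Fin 3 → K) | IsABC p ∧ ht p.rep ≤ T}.Finite) ∧
    (∀ δ : ℝ, 0 < δ → ∃ C T₀ : ℝ, 0 < C ∧ ∀ T : ℝ, T₀ ≤ T →
      ({p : Projectivization K (Fin 3 → K) |
          IsABC p ∧ ht p.rep ≤ T ∧ rad p.rep < (3 - ε) * ht p.rep}.ncard : ℝ) ≤
        C * Real.exp (-(2 * ε / 3 - δ) * Module.finrank ℚ K * T) *
          ({p : Projectivization K (Fin 3 → K) | IsABC p ∧ ht p.rep ≤ T}.ncard : ℝ)) ∧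
    Tendsto (fun T : ℝ => ({p : Projectivization K (Fin 3 → K) |
          IsABC p ∧ ht p.rep ≤ T ∧ rad p.rep < (3 - ε) * ht p.rep}.ncard : ℝ) /
          ({p : Projectivization K (Fin 3 → K) | IsABC p ∧ ht p.rep ≤ T}.ncard : ℝ))
      atTop (𝓝 0) := by
  have hd : (0 : ℝ) < Module.finrank ℚ K := finrank_pos'
  have key : ∀ δ : ℝ, 0 < δ → ∃ C T₀ : ℝ, 0 < C ∧ ∀ T : ℝ, T₀ ≤ T →
      ({p : Projectivization K (Fin 3 → K) |
          IsABC p ∧ ht p.rep ≤ T ∧ rad p.rep < (3 - ε) * ht p.rep}.ncard : ℝ) ≤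
        C * Real.exp (-(2 * ε / 3 - δ) * Module.finrank ℚ K * T) *
          ({p : Projectivization K (Fin 3 → K) | IsABC p ∧ ht p.rep ≤ T}.ncard : ℝ) := by
    intro δ hδ
    obtain ⟨C, hC, h⟩ := count (K := K) (δ / 5) (by positivity)
    obtain ⟨c, T0, hc, hl⟩ := lower (K := K) (δ / 5) (by positivity)
    refine ⟨C / c, max T0 0, by positivity, fun T hT => ?_⟩
    have hT0 : T0 ≤ T := (le_max_left _ _).trans hT
    have hT' : 0 ≤ T := (le_max_right _ _).trans hT
    have h1 := h T ((3 - ε) * T) hT' (mul_nonneg (by linarith) hT')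
    have hsub : {p : Projectivization K (Fin 3 → K) |
        IsABC p ∧ ht p.rep ≤ T ∧ rad p.rep < (3 - ε) * ht p.rep} ⊆
        {p : Projectivization K (Fin 3 → K) | IsABC p ∧ ht p.rep ≤ T ∧
          rad p.rep ≤ (3 - ε) * T} := by
      rintro p ⟨hp, hpT, hpr⟩
      exact ⟨hp, hpT, hpr.le.trans (mul_le_mul_of_nonneg_left hpT (by linarith))⟩
    have h2 : ({p : Projectivization K (Fin 3 → K) |
        IsABC p ∧ ht p.rep ≤ T ∧ rad p.rep < (3 - ε) * ht p.rep}.ncard : ℝ) ≤
        ({p : Projectivization K (Fin 3 → K) | IsABC p ∧ ht p.rep ≤ T ∧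
          rad p.rep ≤ (3 - ε) * T}.ncard : ℝ) := by
      exact_mod_cast Set.ncard_le_ncard hsub
        ((points_finite T).subset fun p hp => ⟨hp.1, hp.2.1⟩)
    refine h2.trans (h1.trans ?_)
    have h3 := hl T hT0
    calc C * Real.exp (Module.finrank ℚ K * ((2 / 3 + δ / 5) * ((3 - ε) * T) + δ / 5 * T))
        ≤ C * Real.exp (-(2 * ε / 3 - δ) * Module.finrank ℚ K * T +
            (2 - δ / 5) * Module.finrank ℚ K * T) := by
          apply mul_le_mul_of_nonneg_left _ hC.le
          apply Real.exp_le_exp.2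
          have h4 : (2 / 3 + δ / 5) * ((3 - ε) * T) + δ / 5 * T ≤
              (-(2 * ε / 3 - δ) + (2 - δ / 5)) * T := by
            have h5 : 0 ≤ δ / 5 * ε * T := by positivity
            nlinarith
          calc (Module.finrank ℚ K : ℝ) * ((2 / 3 + δ / 5) * ((3 - ε) * T) + δ / 5 * T)
              ≤ (Module.finrank ℚ K : ℝ) * ((-(2 * ε / 3 - δ) + (2 - δ / 5)) * T) :=
                mul_le_mul_of_nonneg_left h4 hd.le
            _ = _ := by ring
      _ = (C / c) * Real.exp (-(2 * ε / 3 - δ) * Module.finrank ℚ K * T) *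
            (c * Real.exp ((2 - δ / 5) * Module.finrank ℚ K * T)) := by
          rw [Real.exp_add]
          field_simp
      _ ≤ _ := mul_le_mul_of_nonneg_left h3 (by positivity)
  refine ⟨fun T => points_finite T, key, ?_⟩
  obtain ⟨C, T0, hC, h⟩ := key (ε / 3) (by positivity)
  have hlim : Tendsto (fun T : ℝ => C * Real.exp (-(ε / 3) * Module.finrank ℚ K * T)) atTop (𝓝 0) := by
    have h1 : Tendsto (fun T : ℝ => -(ε / 3) * Module.finrank ℚ K * T) atTop atBot := by
      apply Tendsto.const_mul_atTop_of_neg _ tendsto_id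
      have : 0 < ε / 3 * Module.finrank ℚ K := by positivity
      linarith
    have h2 := (Real.tendsto_exp_atBot.comp h1).const_mul C
    rw [mul_zero] at h2
    exact h2
  refine squeeze_zero' (Eventually.of_forall fun T => by positivity) ?_ hlim
  filter_upwards [eventually_ge_atTop T0] with T hT
  have h1 := h T hT
  have h2 : -(2 * ε / 3 - ε / 3) * (Module.finrank ℚ K : ℝ) * T =
    -(ε / 3) * (Module.finrank ℚ K : ℝ) * T := by ring
  rw [h2] at h1
  rcases eq_or_ne (({p : Projectivization K (Fin 3 → K) | IsABC p ∧ ht p.rep ≤ T}.ncard : ℝ)) 0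
    with h0 | h0
  · rw [h0, div_zero]
    positivity
  · have h3 : (0 : ℝ) < ({p : Projectivization K (Fin 3 → K) | IsABC p ∧ ht p.rep ≤ T}.ncard : ℝ) :=
      lt_of_le_of_ne (Nat.cast_nonneg _) (Ne.symm h0)
    rw [div_le_iff₀ h3]
    exact h1

end Pool.Agent.Results.MP_a793bb_nt.AlmostAll
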