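import Pool.Agent.H645R3.ABC6

set_option autoImplicit false

open NumberField H645.ABC

namespace Pool.Agent.Results.MP_a793bb_nt.ExceptionalSet

/-- For every number field `K` of degree `d`: (1) the number of points `P = (a : b : c)` with
`a + b + c = 0`, `abc ≠ 0`, `h(P) ≤ T` and `rad(P) ≤ R` is `≪_{K,δ} exp (d ((2/3 + δ) R + δ T))`;
(2) consequently the set of exceptions to `h(P) < (1 + ε) rad(P)` with `h(P) ≤ T` has at most
`≪_{K,ε,δ} exp ((2 / (3 (1 + ε)) + δ) d T)` elements. -/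
theorem result (K : Type) [Field K] [NumberField K] :
    (∀ δ : ℝ, 0 < δ → ∃ C : ℝ, 0 < C ∧ ∀ T R : ℝ, 0 ≤ T → 0 ≤ R →
      {p : Projectivization K (Fin 3 → K) | IsABC p ∧ ht p.rep ≤ T ∧ rad p.rep ≤ R}.Finite ∧
      ({p : Projectivization K (Fin 3 → K) |
          IsABC p ∧ ht p.rep ≤ T ∧ rad p.rep ≤ R}.ncard : ℝ) ≤
        C * Real.exp (Module.finrank ℚ K * ((2 / 3 + δ) * R + δ * T))) ∧
    (∀ ε : ℝ, 0 ≤ ε → ∀ δ : ℝ, 0 < δ → ∃ C : ℝ, 0 < C ∧ ∀ T : ℝ, 0 ≤ T →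
      {p : Projectivization K (Fin 3 → K) |
        IsABC p ∧ ht p.rep ≤ T ∧ ¬ (ht p.rep < (1 + ε) * rad p.rep)}.Finite ∧
      ({p : Projectivization K (Fin 3 → K) |
          IsABC p ∧ ht p.rep ≤ T ∧ ¬ (ht p.rep < (1 + ε) * rad p.rep)}.ncard : ℝ) ≤
        C * Real.exp ((2 / (3 * (1 + ε)) + δ) * Module.finrank ℚ K * T)) := by
  have hfin : ∀ (T : ℝ) (Q : Projectivization K (Fin 3 → K) → Prop),
      {p : Projectivization K (Fin 3 → K) | IsABC p ∧ ht p.rep ≤ T ∧ Q p}.Finite := fun T Q =>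
    (points_finite T).subset fun p hp => ⟨hp.1, hp.2.1⟩
  constructor
  · intro δ hδ
    obtain ⟨C, hC, h⟩ := count (K := K) δ hδ
    exact ⟨C, hC, fun T R hT hR => ⟨hfin T _, h T R hT hR⟩⟩
  · intro ε hε δ hδ
    obtain ⟨C, hC, h⟩ := count (K := K) (δ / 2) (by positivity)
    refine ⟨C, hC, fun T hT => ⟨hfin T _, ?_⟩⟩
    have h1 := h T (T / (1 + ε)) hT (by positivity)
    have hsub : {p : Projectivization K (Fin 3 → K) |
        IsABC p ∧ ht p.rep ≤ T ∧ ¬ (ht p.rep < (1 + ε) * rad p.rep)} ⊆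
        {p : Projectivization K (Fin 3 → K) | IsABC p ∧ ht p.rep ≤ T ∧ rad p.rep ≤ T / (1 + ε)} := by
      rintro p ⟨hp, hpT, hpr⟩
      refine ⟨hp, hpT, ?_⟩
      rw [le_div_iff₀ (by positivity)]
      have := not_lt.1 hpr
      linarith
    have h2 : ({p : Projectivization K (Fin 3 → K) |
        IsABC p ∧ ht p.rep ≤ T ∧ ¬ (ht p.rep < (1 + ε) * rad p.rep)}.ncard : ℝ) ≤
        ({p : Projectivization K (Fin 3 → K) |
          IsABC p ∧ ht p.rep ≤ T ∧ rad p.rep ≤ T / (1 + ε)}.ncard : ℝ) := by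
      exact_mod_cast Set.ncard_le_ncard hsub (hfin T _)
    refine h2.trans (h1.trans ?_)
    apply mul_le_mul_of_nonneg_left _ hC.le
    apply Real.exp_le_exp.2
    have hd : (0 : ℝ) < Module.finrank ℚ K := finrank_pos'
    have h3 : (2 / 3 + δ / 2) * (T / (1 + ε)) + δ / 2 * T ≤ (2 / (3 * (1 + ε)) + δ) * T := by
      have h4 : T / (1 + ε) ≤ T := div_le_self hT (by linarith)
      have h5 : (2 / 3 + δ / 2) * (T / (1 + ε)) = 2 / (3 * (1 + ε)) * T + δ / 2 * (T / (1 + ε)) := by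
        field_simp
      rw [h5]
      nlinarith
    calc (Module.finrank ℚ K : ℝ) * ((2 / 3 + δ / 2) * (T / (1 + ε)) + δ / 2 * T)
        ≤ (Module.finrank ℚ K : ℝ) * ((2 / (3 * (1 + ε)) + δ) * T) :=
          mul_le_mul_of_nonneg_left h3 hd.le
      _ = (2 / (3 * (1 + ε)) + δ) * Module.finrank ℚ K * T := by ring

end Pool.Agent.Results.MP_a793bb_nt.ExceptionalSet
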