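import Pool.Agent.H645R3.ABC11

set_option autoImplicit false

open NumberField H645.ABC

namespace Pool.Agent.Results.MP_a793bb_nt.ThinSets

/-- For every number field `K` and every `n ≥ 1`, the abc conjecture over `K` is equivalent to its
restriction to the points `(-t^n : 1 : t^n - 1)`, `t ∈ K`; and for `n` large these points are
arbitrarily sparse: for every `η > 0` there is `n ≥ 1` such that only `O(exp (η T))` of them have
height at most `T`. -/
theorem result (K : Type) [Field K] [NumberField K] :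
    (∀ n : ℕ, 1 ≤ n → (abcOn K {p | IsABC p} ↔ abcOn K (powSet K n))) ∧
    (∀ η : ℝ, 0 < η → ∃ n : ℕ, 1 ≤ n ∧ ∃ C : ℝ, 0 < C ∧ ∀ T : ℝ, 0 ≤ T →
      {p : Projectivization K (Fin 3 → K) | p ∈ powSet K n ∧ ht p.rep ≤ T}.Finite ∧
      ({p : Projectivization K (Fin 3 → K) | p ∈ powSet K n ∧ ht p.rep ≤ T}.ncard : ℝ) ≤
        C * Real.exp (η * T)) := by
  constructor
  · intro n hn
    constructor
    · intro h ε hε
      obtain ⟨C, hC⟩ := h ε hε
      exact ⟨C, fun p hp => hC p hp.1⟩
    · exact reduction n hn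
  · intro η hη
    obtain ⟨A, hA, h⟩ := powSet_count (K := K)
    let n : ℕ := ⌈A / η⌉₊ + 1
    have hn : 1 ≤ n := Nat.succ_pos _
    have hnA : A / n ≤ η := by
      have h3 : A / η ≤ n := by
        refine (Nat.le_ceil _).trans ?_
        push_cast [n]
        linarith
      have hn0 : (0 : ℝ) < n := by exact_mod_cast hn
      rw [div_le_iff₀ hn0]
      rw [div_le_iff₀ hη] at h3
      linarith
    obtain ⟨C, hC, hc⟩ := h n hn
    refine ⟨n, hn, C, hC, fun T hT => ⟨(hc T hT).1, (hc T hT).2.trans ?_⟩⟩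
    apply mul_le_mul_of_nonneg_left _ hC.le
    apply Real.exp_le_exp.2
    exact mul_le_mul_of_nonneg_right hnA hT

end Pool.Agent.Results.MP_a793bb_nt.ThinSets
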